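import Pool.Agent.Q39.Bhargava

/-!
# The proposed ratio of the Bhargava factorials of prime quadruplets and twin primes fails at `n = 28`

The prime `29` is a twin prime and belongs to no quadruplet `(q, q+2, q+6, q+8)`, so `29` divides
`28!_{P_4}`; but the set of the twin primes meets every class modulo `29`, so `29` does not divide
`28!_{P_2}`, nor `3 w_3(28) 28!_{P_2}`.
-/

set_option autoImplicit false

namespace Pool.Agent.Results.MP_38a930_nt.QuadrupletIdentityFails

open Pool.Agent.Q39.Bhargava

/-- The set of the twin primes: the primes `q` such that `q + 2` or `q - 2` is prime. -/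
def twinPrimes : Set ℤ := {x | ∃ q : ℕ, q.Prime ∧ ((q + 2).Prime ∨ (q - 2).Prime) ∧ x = q}

/-- The set of the primes occurring in some quadruplet `q, q+2, q+6, q+8` of primes. -/
def quadPrimes : Set ℤ := {x | ∃ q : ℕ, q.Prime ∧ (q + 2).Prime ∧ (q + 6).Prime ∧ (q + 8).Prime ∧
  (x = q ∨ x = q + 2 ∨ x = q + 6 ∨ x = q + 8)}

/-- `w p m`, the largest power of `p` dividing `m`. -/
def w (p m : ℕ) : ℕ := p ^ padicValNat p m

lemma dvd_prime {q p : ℕ} (hq : q.Prime) (hp : p.Prime) (h : (q : ℤ) ∣ (p : ℤ)) : p = q := by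
  have h1 : q ∣ p := by exact_mod_cast h
  exact ((Nat.prime_dvd_prime_iff_eq hq hp).1 h1).symm

lemma quad_missing : ∀ x ∈ quadPrimes, ¬ ((29 : ℕ) : ℤ) ∣ x := by
  rintro x ⟨p, h0, h2, h6, h8, h⟩ hd
  rcases h with rfl | rfl | rfl | rfl
  · have h := dvd_prime (by norm_num) h0 hd
    subst h
    revert h6; norm_num
  · have h := dvd_prime (q := 29) (p := p + 2) (by norm_num) h2 (by push_cast; exact_mod_cast hd)
    have hp : p = 27 := by omega
    subst hp
    revert h0; norm_num
  · have h := dvd_prime (q := 29) (p := p + 6) (by norm_num) h6 (by push_cast; exact_mod_cast hd)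
    have hp : p = 23 := by omega
    subst hp
    revert h2; norm_num
  · have h := dvd_prime (q := 29) (p := p + 8) (by norm_num) h8 (by push_cast; exact_mod_cast hd)
    have hp : p = 21 := by omega
    subst hp
    revert h0; norm_num

/-- Twin primes representing all classes modulo `29`. -/
def reps : List ℕ := [
  29, 59, 31, 3, 149, 5, 151, 7, 269, 241, 271, 11, 41, 13, 43, 73, 103, 17, 569, 19,
      107, 137, 109, 139, 227, 199, 229, 433, 347]

lemma twin_full : ∀ r : ZMod 29, ∃ x ∈ twinPrimes, ((x : ℤ) : ZMod 29) = r := by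
  have key : ∀ m < 29, ∃ q ∈ reps, q % 29 = m := by decide
  have hpr : ∀ q ∈ reps, Nat.Prime q ∧ ((q + 2).Prime ∨ (q - 2).Prime) := by
    intro q hq
    simp only [reps, List.mem_cons, List.not_mem_nil, or_false] at hq
    rcases hq with rfl | rfl | rfl | rfl | rfl | rfl | rfl | rfl | rfl | rfl | rfl | rfl | rfl | rfl | rfl | rfl | rfl | rfl | rfl | rfl | rfl | rfl | rfl | rfl | rfl | rfl | rfl | rfl | rfl <;> norm_num
  intro r
  obtain ⟨q, hq, hqr⟩ := key r.val (ZMod.val_lt r)
  refine ⟨(q : ℤ), ⟨q, (hpr q hq).1, (hpr q hq).2, rfl⟩, ?_⟩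
  have h1 : ((q : ℕ) : ZMod 29) = ((r.val : ℕ) : ZMod 29) := by
    rw [← hqr, ZMod.natCast_mod]
  have h2 : ((r.val : ℕ) : ZMod 29) = r := by
    exact ZMod.natCast_zmod_val r
  push_cast
  rw [h1, h2]

/-- The first `29` elements of the set of the primes in quadruplets. -/
def quadList : Finset ℕ := {
  5, 7, 11, 13, 17, 19, 101, 103, 107, 109, 191, 193, 197, 199, 821, 823, 827, 829, 1481,
      1483, 1487, 1489, 1871, 1873, 1877, 1879, 2081, 2083, 2087}

lemma quadList_mem : ∀ q ∈ quadList, ∃ p : ℕ, p.Prime ∧ (p + 2).Prime ∧ (p + 6).Prime ∧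
    (p + 8).Prime ∧ (q = p ∨ q = p + 2 ∨ q = p + 6 ∨ q = p + 8) := by
  intro q hq
  simp only [quadList, Finset.mem_insert, Finset.mem_singleton] at hq
  rcases hq with rfl | rfl | rfl | rfl | rfl | rfl | rfl | rfl | rfl | rfl | rfl | rfl | rfl | rfl | rfl | rfl | rfl | rfl | rfl | rfl | rfl | rfl | rfl | rfl | rfl | rfl | rfl | rfl | rfl
  · exact ⟨5, by norm_num, by norm_num, by norm_num, by norm_num, by norm_num⟩
  · exact ⟨5, by norm_num, by norm_num, by norm_num, by norm_num, by norm_num⟩
  · exact ⟨11, by norm_num, by norm_num, by norm_num, by norm_num, by norm_num⟩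
  · exact ⟨11, by norm_num, by norm_num, by norm_num, by norm_num, by norm_num⟩
  · exact ⟨11, by norm_num, by norm_num, by norm_num, by norm_num, by norm_num⟩
  · exact ⟨11, by norm_num, by norm_num, by norm_num, by norm_num, by norm_num⟩
  · exact ⟨101, by norm_num, by norm_num, by norm_num, by norm_num, by norm_num⟩
  · exact ⟨101, by norm_num, by norm_num, by norm_num, by norm_num, by norm_num⟩
  · exact ⟨101, by norm_num, by norm_num, by norm_num, by norm_num, by norm_num⟩
  · exact ⟨101, by norm_num, by norm_num, by norm_num, by norm_num, by norm_num⟩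
  · exact ⟨191, by norm_num, by norm_num, by norm_num, by norm_num, by norm_num⟩
  · exact ⟨191, by norm_num, by norm_num, by norm_num, by norm_num, by norm_num⟩
  · exact ⟨191, by norm_num, by norm_num, by norm_num, by norm_num, by norm_num⟩
  · exact ⟨191, by norm_num, by norm_num, by norm_num, by norm_num, by norm_num⟩
  · exact ⟨821, by norm_num, by norm_num, by norm_num, by norm_num, by norm_num⟩
  · exact ⟨821, by norm_num, by norm_num, by norm_num, by norm_num, by norm_num⟩
  · exact ⟨821, by norm_num, by norm_num, by norm_num, by norm_num, by norm_num⟩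
  · exact ⟨821, by norm_num, by norm_num, by norm_num, by norm_num, by norm_num⟩
  · exact ⟨1481, by norm_num, by norm_num, by norm_num, by norm_num, by norm_num⟩
  · exact ⟨1481, by norm_num, by norm_num, by norm_num, by norm_num, by norm_num⟩
  · exact ⟨1481, by norm_num, by norm_num, by norm_num, by norm_num, by norm_num⟩
  · exact ⟨1481, by norm_num, by norm_num, by norm_num, by norm_num, by norm_num⟩
  · exact ⟨1871, by norm_num, by norm_num, by norm_num, by norm_num, by norm_num⟩
  · exact ⟨1871, by norm_num, by norm_num, by norm_num, by norm_num, by norm_num⟩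
  · exact ⟨1871, by norm_num, by norm_num, by norm_num, by norm_num, by norm_num⟩
  · exact ⟨1871, by norm_num, by norm_num, by norm_num, by norm_num, by norm_num⟩
  · exact ⟨2081, by norm_num, by norm_num, by norm_num, by norm_num, by norm_num⟩
  · exact ⟨2081, by norm_num, by norm_num, by norm_num, by norm_num, by norm_num⟩
  · exact ⟨2081, by norm_num, by norm_num, by norm_num, by norm_num, by norm_num⟩

lemma quad_encard : ((28 : ℕ) : ℕ∞) < quadPrimes.encard := by
  have h1 : ((quadList.image (fun q : ℕ => (q : ℤ)) : Finset ℤ) : Set ℤ) ⊆ quadPrimes := by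
    intro x hx
    simp only [Finset.coe_image, Set.mem_image, Finset.mem_coe] at hx
    obtain ⟨q, hq, rfl⟩ := hx
    obtain ⟨p, h0, h2, h6, h8, h⟩ := quadList_mem q hq
    refine ⟨p, h0, h2, h6, h8, ?_⟩
    rcases h with rfl | rfl | rfl | rfl
    · left; rfl
    · right; left; push_cast; rfl
    · right; right; left; push_cast; rfl
    · right; right; right; push_cast; rfl
  have h2 := Set.encard_le_encard h1
  rw [Set.encard_coe_eq_coe_finsetCard] at h2
  have h3 : (quadList.image (fun q : ℕ => (q : ℤ))).card = 29 := by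
    rw [Finset.card_image_of_injective _ Nat.cast_injective]
    rfl
  rw [h3] at h2
  exact lt_of_lt_of_le (by exact_mod_cast (by norm_num : 28 < 29)) h2

lemma twin_encard : ((28 : ℕ) : ℕ∞) < twinPrimes.encard := by
  refine lt_of_lt_of_le quad_encard (Set.encard_le_encard ?_)
  rintro x ⟨p, h0, h2, h6, h8, h⟩
  rcases h with rfl | rfl | rfl | rfl
  · exact ⟨p, h0, Or.inl h2, rfl⟩
  · exact ⟨p + 2, h2, Or.inr (by simpa using h0), by push_cast; rfl⟩
  · exact ⟨p + 6, h6, Or.inl h8, by push_cast; rfl⟩
  · exact ⟨p + 8, h8, Or.inr h6, by push_cast; rfl⟩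

/-- The proposed identity for `n!_{P_4} / n!_{P_2}` fails for `n = 28`, where both factorials
are defined. -/
theorem result :
    (∃ F, IsFactorial twinPrimes 28 F) ∧ (∃ G, IsFactorial quadPrimes 28 G) ∧
    (∀ F G, IsFactorial twinPrimes 28 F → IsFactorial quadPrimes 28 G →
      G ≠ 3 * w 3 28 * F) ∧
    ¬ (∀ n : ℕ, 1 ≤ n → ∀ F G, IsFactorial twinPrimes n F → IsFactorial quadPrimes n G →
      (G : ℚ) / (F : ℚ) = if Even n then 3 * (w 3 n : ℚ) else 1) := by
  have hw3 : w 3 28 = 1 := by
    unfold w
    rw [padicValNat.eq_zero_of_not_dvd (by norm_num), pow_zero]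
  have key : ∀ F G, IsFactorial twinPrimes 28 F → IsFactorial quadPrimes 28 G →
      G ≠ 3 * w 3 28 * F := by
    intro F G hF hG
    exact ne_of_missing_full (q := 29) (by norm_num) quad_missing twin_full hG hF
      (by rw [hw3]; norm_num)
  refine ⟨exists_factorial twin_encard, exists_factorial quad_encard, key, ?_⟩
  intro h
  obtain ⟨F, hF⟩ := exists_factorial twin_encard
  obtain ⟨G, hG⟩ := exists_factorial quad_encard
  apply key F G hF hG
  have h1 := h 28 (by norm_num) F G hF hG
  have hF0 : (F : ℚ) ≠ 0 := by exact_mod_cast hF.2.1.ne'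
  rw [div_eq_iff hF0, if_pos (by decide)] at h1
  exact_mod_cast h1

end Pool.Agent.Results.MP_38a930_nt.QuadrupletIdentityFails
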